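import Pool.Agent.helper9.TH.Spec

namespace Pool.Agent.helper52.TH

open Pool.Agent.helper9.TH

universe u

theorem isPGroup_of_EA {s : ℕ} {G : Type u} [Group G] {A : Subgroup G} (h : EA s A) :
    IsPGroup s A := by
  intro g
  refine ⟨1, ?_⟩
  rw [pow_one]
  exact Subtype.ext (by simpa using h.2 g.1 g.2)

/-- The subgroup generated by a Sylow subgroup of `R` and `N` is normal in the big group. -/
theorem map_sup_normal {r : ℕ} {T : Type u} [Group T] [Finite T] (hr : r.Prime)
    (R N : Subgroup T) [N.Normal] (hR : R.Normal)
    (hnil : Group.IsNilpotent (R.map (QuotientGroup.mk' N)))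
    (P : Sylow r R) : ((P : Subgroup R).map R.subtype ⊔ N).Normal := by
  haveI : Fact r.Prime := ⟨hr⟩
  haveI hRn : (R.map (QuotientGroup.mk' N)).Normal :=
    hR.map _ (QuotientGroup.mk'_surjective N)
  have hf : Function.Surjective ((QuotientGroup.mk' N).subgroupMap R) :=
    MonoidHom.subgroupMap_surjective _ _
  let P' : Sylow r (R.map (QuotientGroup.mk' N)) := P.mapSurjective hf
  have hP' : (P' : Subgroup (R.map (QuotientGroup.mk' N))).Normal := inferInstance
  haveI : (P' : Subgroup (R.map (QuotientGroup.mk' N))).Characteristic :=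
    Sylow.characteristic_of_normal P' hP'
  have hn : ((P' : Subgroup (R.map (QuotientGroup.mk' N))).map
      (R.map (QuotientGroup.mk' N)).subtype).Normal :=
    ConjAct.normal_of_characteristic_of_normal
  have he : (P' : Subgroup (R.map (QuotientGroup.mk' N))).map
      (R.map (QuotientGroup.mk' N)).subtype
      = ((P : Subgroup R).map R.subtype).map (QuotientGroup.mk' N) := by
    show ((P : Subgroup R).map ((QuotientGroup.mk' N).subgroupMap R)).map _ = _
    rw [Subgroup.map_map, Subgroup.map_map]
    rfl
  rw [he] at hn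
  have h2 := hn.comap (QuotientGroup.mk' N)
  rwa [QuotientGroup.comap_map_mk', sup_comm] at h2

theorem KM2 (hKM1 : KM1_stmt.{u}) : KM2_stmt.{u} := by
  intro p s T _ _ R N _ a hp hs hR hNR hN hnil hSpl
  refine (Group.isNilpotent_of_finite_tfae (G := R)).out 0 3 rfl rfl |>.mpr ?_
  intro r hr P
  haveI := hr
  have hM : ((P : Subgroup R).map R.subtype ⊔ N).Normal :=
    map_sup_normal hr.out R N hR hnil P
  set Y : Subgroup T := (P : Subgroup R).map R.subtype with hY
  have hYp : IsPGroup r Y := P.isPGroup'.map R.subtype
  have hYR : Y ≤ R := Subgroup.map_subtype_le _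
  have hYsub : Y.subgroupOf R = (P : Subgroup R) := by
    rw [hY, Subgroup.subgroupOf, Subgroup.comap_map_eq_self_of_injective R.subtype_injective]
  -- it suffices that `Y` is normal in `T`
  suffices hYn : Y.Normal by
    have h3 : (Y.subgroupOf R).Normal := hYn.comap R.subtype
    rwa [hYsub] at h3
  by_cases hrs : r = s
  · subst hrs
    haveI : (N.subgroupOf R).Normal := (inferInstance : N.Normal).comap R.subtype
    have h1 : IsPGroup r (N.subgroupOf R) :=
      (isPGroup_of_EA hN).comap_of_injective R.subtype R.subtype_injective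
    have h2 : N.subgroupOf R ≤ (P : Subgroup R) := h1.le_sylow_of_normal P
    have h3 : N ≤ Y := by
      intro x hx
      exact ⟨⟨x, hNR hx⟩, h2 (by simpa [Subgroup.mem_subgroupOf] using hx), rfl⟩
    rwa [sup_eq_left.2 h3] at hM
  · set M : Subgroup T := Y ⊔ N with hMdef
    have hYM : Y ≤ M := le_sup_left
    have hMR : M ≤ R := sup_le hYR hNR
    have hidx : ¬ r ∣ (Y.subgroupOf M).index := by
      intro hd
      have h4 : Y.relIndex M * M.relIndex R = Y.relIndex R :=
        Subgroup.relIndex_mul_relIndex Y M R hYM hMR
      have h5 : r ∣ Y.relIndex R := by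
        rw [← h4]; exact Dvd.dvd.mul_right hd _
      have h6 : Y.relIndex R = (P : Subgroup R).index := by
        rw [Subgroup.relIndex, hYsub]
      rw [h6] at h5
      exact P.not_dvd_index h5
    have hpg : IsPGroup r (Y.subgroupOf M) :=
      hYp.comap_of_injective M.subtype M.subtype_injective
    let Q : Sylow r M := hpg.toSylow hidx
    have hFr := Sylow.normalizer_sup_eq_top Q
    have hQmap : (Q : Subgroup M).map M.subtype = Y := by
      show (Y.subgroupOf M).map M.subtype = Y
      rw [Subgroup.subgroupOf_map_subtype]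
      exact inf_eq_left.2 hYM
    rw [hQmap] at hFr
    have htop : Subgroup.normalizer (Y : Set T) ⊔ N = ⊤ := by
      rw [eq_top_iff, ← hFr]
      refine sup_le le_sup_left ?_
      exact sup_le (le_trans Subgroup.le_normalizer le_sup_left) le_sup_right
    have ha : a ∈ Subgroup.normalizer (Y : Set T) ⊔ N := by rw [htop]; trivial
    obtain ⟨t, ht, n, hn, htn⟩ := Subgroup.mem_sup_of_normal_right.1 ha
    have hta : t = a * n⁻¹ := by rw [← htn]; group
    have hcom : ∀ y ∈ Y, ∀ v ∈ N, y * v = v * y := by
      refine hKM1 p r s T N Y t hp hr.out hs hrs inferInstance hN hYp ?_ ?_ ?_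
      · intro y hy
        exact (Subgroup.mem_normalizer_iff.1 ht y).1 hy
      · intro y hy
        have := (Subgroup.mem_normalizer_iff.1 (Subgroup.inv_mem _ ht) y).1 hy
        simpa using this
      · intro y hy v hv
        have h7 : t * y * v = a * (n⁻¹ * y * v) := by rw [hta]; group
        rw [h7]
        exact hSpl _ (R.mul_mem (R.mul_mem (hNR (N.inv_mem hn)) (hYR hy)) (hNR hv))
    have hNn : N ≤ Subgroup.normalizer (Y : Set T) := by
      intro v hv
      rw [Subgroup.mem_normalizer_iff]
      intro h
      constructor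
      · intro hh
        have h8 : v * h * v⁻¹ = h := by rw [← hcom h hh v hv]; group
        rwa [h8]
      · intro hh
        have h9 := hcom _ hh v hv
        have h8 : h = v * h * v⁻¹ := by
          have h10 : v * h = v * (v * h * v⁻¹) := by rw [← h9]; group
          exact mul_left_cancel h10
        rwa [h8]
    rw [← Subgroup.normalizer_eq_top_iff]
    rwa [sup_eq_left.2 hNn] at htop

end Pool.Agent.helper52.TH
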